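import Pool.Agent.Lib.MP_2805c2_an.ST.All
import Pool.Agent.Lib.MP_2805c2_an.SQ.Bridge

/-!
# Almost every convex quadrilateral has only finitely many isospectral mates

For almost every quadruple `p` of points of the plane in convex position there are, up to
congruence, only finitely many convex quadrilaterals with the same Dirichlet spectrum as the
quadrilateral with vertices `p`. The definitions (`H¹₀`, the multiplicity `mult` of a number in
the Dirichlet spectrum, `drum`, `ConvexPosition`) are in `SQ/Drum.lean`; the proof is described in
`ST/Paper.md` and `SQ/Paper.md`.
-/

set_option autoImplicit false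

namespace Pool.Agent.Results.MP_2805c2_an.AlmostEvery

open Pool.SqDrum.Drum MeasureTheory

/-- For almost every quadruple `p` of points of the plane (Lebesgue measure on `(ℝ²)⁴`), if `p` is
in convex position then there is a finite set `S` of quadrilaterals such that every convex
quadrilateral `q` with the same Dirichlet spectrum as `p`, with multiplicities, is congruent to a
member of `S`. -/
theorem result :
    ∀ᵐ p : Fin 4 → E2, ConvexPosition p →
      ∃ S : Set (Fin 4 → E2), S.Finite ∧ ∀ q : Fin 4 → E2, ConvexPosition q →
        (∀ μ : ℝ, mult (drum p) μ = mult (drum q) μ) →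
        ∃ q' ∈ S, ∃ e : E2 ≃ᵢ E2,
          e '' convexHull ℝ (Set.range q) = convexHull ℝ (Set.range q') :=
  Pool.SqDrum.tee_all

end Pool.Agent.Results.MP_2805c2_an.AlmostEvery
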