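import Pool.Agent.Lib.MP_2805c2_an.SQ.All
import Pool.Agent.Lib.MP_2805c2_an.SQ.Bridge

/-!
# Convex quadrilaterals close to a square are determined by their Dirichlet spectrum

There is `ε > 0` such that a quadrilateral `p` whose vertices are within `ε s` of the vertices of
some square of side `s` is congruent to every convex quadrilateral `q` with the same Dirichlet
spectrum. The definitions (`H¹₀`, the multiplicity `mult` of a number in the Dirichlet spectrum,
`drum`, `ConvexPosition`, `corner`) are in `SQ/Drum.lean`; the proof is described in
`SQ/Paper.md` and is spread over the files of the folder `SQ`.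
-/

set_option autoImplicit false

namespace Pool.Agent.Results.MP_2805c2_an.NearSquare

open Pool.SqDrum.Drum

/-- There is `ε > 0` such that, whenever the vertices `p i` are within `ε s` of the vertices
`e (s • corner i)` of a square of side `s > 0` (`e` an isometry of the plane), `q` is in convex
position and the drums of `p` and `q` have the same Dirichlet spectrum with multiplicities, the
two quadrilaterals are congruent. -/
theorem result :
    ∃ ε : ℝ, 0 < ε ∧ ∀ (s : ℝ) (e : E2 ≃ᵢ E2) (p q : Fin 4 → E2), 0 < s →
      (∀ i, dist (p i) (e (s • corner i)) ≤ ε * s) → ConvexPosition q →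
      (∀ μ : ℝ, mult (drum p) μ = mult (drum q) μ) →
      ∃ e' : E2 ≃ᵢ E2, e' '' convexHull ℝ (Set.range p) = convexHull ℝ (Set.range q) := by
  obtain ⟨ε, hε, h⟩ := Pool.SqDrum.all
  exact ⟨ε, hε, fun s e p q hs hp hq hm => h s e p q hs hp hq hm⟩

end Pool.Agent.Results.MP_2805c2_an.NearSquare
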